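import Mathlib
import Pool.Agent.K3h37.RS.Low.Fin

/-!
# A zero-one law for the unit equation in a random set of primes (brick ZO)
-/

set_option autoImplicit false

namespace Pool.Agent.K3h67.RS

open MeasureTheory ProbabilityTheory Filter
open Pool.Agent.K3h37.RS.Low (IndNat Pairs R)

/-- The event is measurable as soon as the events of the large primes are. -/
theorem meas_E {Ω : Type} [MeasurableSpace Ω] (Q : Ω → Set ℕ) (N : ℕ)
    (h : ∀ p : ℕ, p.Prime → N ≤ p → MeasurableSet {ω | p ∈ Q ω}) :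
    MeasurableSet {ω | ∃ S : Finset ℕ, (Pairs (Q ω ∪ (S : Set ℕ))).Infinite} := by
  classical
  have e : {ω | ∃ S : Finset ℕ, (Pairs (Q ω ∪ (S : Set ℕ))).Infinite} =
      ⋃ S : Finset ℕ, ⋂ F : Finset (ℕ × ℕ), ⋃ x : ℕ × ℕ, ⋂ p : ℕ,
        {ω | (x ∉ F ∧ 0 < x.1 ∧ 0 < x.2 ∧ Nat.Coprime x.1 x.2) ∧
          (p.Prime → p ∣ R x → p ∈ Q ω ∨ p ∈ S ∪ Finset.range N)} := by
    ext ω
    simp only [Set.mem_iUnion, Set.mem_iInter, Set.mem_setOf_eq]
    constructor
    · rintro ⟨S, hS⟩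
      refine ⟨S, fun F => ?_⟩
      obtain ⟨x, hx, hxF⟩ := hS.exists_notMem_finset F
      refine ⟨x, fun p => ⟨⟨hxF, hx.1, hx.2.1, hx.2.2.1⟩, fun hp hpx => ?_⟩⟩
      rcases hx.2.2.2 p hp hpx with h1 | h1
      · exact Or.inl h1
      · exact Or.inr (Finset.mem_union_left _ h1)
    · rintro ⟨S, hS⟩
      refine ⟨S ∪ Finset.range N, fun hfin => ?_⟩
      obtain ⟨x, hx⟩ := hS hfin.toFinset
      apply (hx 0).1.1
      rw [Set.Finite.mem_toFinset]
      exact ⟨(hx 0).1.2.1, (hx 0).1.2.2.1, (hx 0).1.2.2.2, fun p hp hpx => (hx p).2 hp hpx⟩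
  rw [e]
  refine MeasurableSet.iUnion fun S => MeasurableSet.iInter fun F => MeasurableSet.iUnion fun x =>
    MeasurableSet.iInter fun p => ?_
  by_cases hc : x ∉ F ∧ 0 < x.1 ∧ 0 < x.2 ∧ Nat.Coprime x.1 x.2
  · by_cases hp : p.Prime ∧ p ∣ R x ∧ p ∉ S ∪ Finset.range N
    · have h1 : {ω | (x ∉ F ∧ 0 < x.1 ∧ 0 < x.2 ∧ Nat.Coprime x.1 x.2) ∧
          (p.Prime → p ∣ R x → p ∈ Q ω ∨ p ∈ S ∪ Finset.range N)} = {ω | p ∈ Q ω} := by
        ext ω
        simp only [Set.mem_setOf_eq]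
        constructor
        · intro h2
          rcases h2.2 hp.1 hp.2.1 with h3 | h3
          · exact h3
          · exact absurd h3 hp.2.2
        · intro h2
          exact ⟨hc, fun _ _ => Or.inl h2⟩
      rw [h1]
      refine h p hp.1 ?_
      by_contra hlt
      apply hp.2.2
      rw [Finset.mem_union, Finset.mem_range]
      right
      omega
    · have h1 : {ω | (x ∉ F ∧ 0 < x.1 ∧ 0 < x.2 ∧ Nat.Coprime x.1 x.2) ∧
          (p.Prime → p ∣ R x → p ∈ Q ω ∨ p ∈ S ∪ Finset.range N)} = Set.univ := by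
        ext ω
        simp only [Set.mem_setOf_eq, Set.mem_univ, iff_true]
        refine ⟨hc, fun h2 h3 => ?_⟩
        right
        by_contra h4
        exact hp ⟨h2, h3, h4⟩
      rw [h1]
      exact MeasurableSet.univ
  · have h1 : {ω | (x ∉ F ∧ 0 < x.1 ∧ 0 < x.2 ∧ Nat.Coprime x.1 x.2) ∧
        (p.Prime → p ∣ R x → p ∈ Q ω ∨ p ∈ S ∪ Finset.range N)} = ∅ := by
      ext ω
      simp only [Set.mem_setOf_eq, Set.mem_empty_iff_false, iff_false]
      exact fun h2 => hc h2.1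
    rw [h1]
    exact MeasurableSet.empty

/-- The events `n ∈ Q ω` of the primes. -/
def AA {Ω : Type} (Q : Ω → Set ℕ) (n : ℕ) : Set Ω := {ω | n.Prime → n ∈ Q ω}

theorem AA_prime {Ω : Type} (Q : Ω → Set ℕ) {n : ℕ} (hn : n.Prime) :
    AA Q n = {ω | n ∈ Q ω} := by
  ext ω
  exact ⟨fun h => h hn, fun h _ => h⟩

theorem AA_not {Ω : Type} (Q : Ω → Set ℕ) {n : ℕ} (hn : ¬ n.Prime) : AA Q n = Set.univ := by
  ext ω
  exact ⟨fun _ => trivial, fun _ h => absurd h hn⟩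

theorem one {Ω : Type} [MeasurableSpace Ω] {μ : Measure Ω} {Q : Ω → Set ℕ} {θ : ℝ}
    (h : IndNat μ Q θ) {p : ℕ} (hp : p.Prime) : MeasurableSet {ω | p ∈ Q ω} ∧
      μ {ω | p ∈ Q ω} = ENNReal.ofReal ((p : ℝ) ^ (-θ)) := by
  have h1 := h {p} (fun q hq => by rw [Finset.mem_singleton.1 hq]; exact hp)
  simpa using h1

theorem AA_meas {Ω : Type} [MeasurableSpace Ω] {μ : Measure Ω} {Q : Ω → Set ℕ} {θ : ℝ}
    (h : IndNat μ Q θ) (n : ℕ) : MeasurableSet (AA Q n) := by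
  by_cases hn : n.Prime
  · rw [AA_prime Q hn]
    exact (one h hn).1
  · rw [AA_not Q hn]
    exact MeasurableSet.univ

theorem AA_indep {Ω : Type} [MeasurableSpace Ω] {μ : Measure Ω} [IsProbabilityMeasure μ]
    {Q : Ω → Set ℕ} {θ : ℝ} (h : IndNat μ Q θ) : iIndepSet (AA Q) μ := by
  classical
  rw [iIndepSet_iff_meas_biInter (AA_meas h)]
  intro s
  have e1 : (⋂ i ∈ s, AA Q i) = {ω | ∀ p ∈ s.filter Nat.Prime, p ∈ Q ω} := by
    ext ω
    simp only [Set.mem_iInter, Set.mem_setOf_eq, Finset.mem_filter]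
    exact ⟨fun h1 p hp => h1 p hp.1 hp.2, fun h1 p hp hpp => h1 p ⟨hp, hpp⟩⟩
  rw [e1, (h (s.filter Nat.Prime) fun p hp => (Finset.mem_filter.1 hp).2).2,
    ENNReal.ofReal_prod_of_nonneg fun p _ => Real.rpow_nonneg (Nat.cast_nonneg _) _,
    Finset.prod_filter]
  refine Finset.prod_congr rfl fun n _ => ?_
  by_cases hn : n.Prime
  · rw [if_pos hn, AA_prime Q hn, (one h hn).2]
  · rw [if_neg hn, AA_not Q hn, measure_univ]

/-- **ZO**: after adding finitely many primes, infinitely many solutions almost surely. -/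
theorem t_ZO {Ω : Type} [MeasurableSpace Ω] {μ : MeasureTheory.Measure Ω}
    [MeasureTheory.IsProbabilityMeasure μ] {Q : Ω → Set ℕ} {θ : ℝ}
    (h : Pool.Agent.K3h37.RS.Low.IndNat μ Q θ)
    (hpos : 0 < μ {ω | (Pool.Agent.K3h37.RS.Low.Pairs (Q ω)).Infinite}) :
    ∀ᵐ ω ∂μ, ∃ S : Finset ℕ,
      (Pool.Agent.K3h37.RS.Low.Pairs (Q ω ∪ (S : Set ℕ))).Infinite := by
  have hle : ∀ n, MeasurableSpace.generateFrom {AA Q n} ≤ (inferInstance : MeasurableSpace Ω) := by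
    intro n
    apply MeasurableSpace.generateFrom_le
    rintro t rfl
    exact AA_meas h n
  have hind := (iIndepSet_iff_iIndep _ _).1 (AA_indep h)
  have htail : MeasurableSet[limsup (fun n => MeasurableSpace.generateFrom {AA Q n}) atTop]
      {ω | ∃ S : Finset ℕ, (Pairs (Q ω ∪ (S : Set ℕ))).Infinite} := by
    rw [limsup_eq_iInf_iSup_of_nat, MeasurableSpace.measurableSet_iInf]
    intro N
    refine @meas_E Ω (⨆ i, ⨆ (_ : i ≥ N), MeasurableSpace.generateFrom {AA Q i}) Q N ?_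
    intro p hp hN
    have h1 : MeasurableSpace.generateFrom {AA Q p} ≤
        ⨆ i, ⨆ (_ : i ≥ N), MeasurableSpace.generateFrom {AA Q i} :=
      le_iSup₂ (f := fun i (_ : i ≥ N) => MeasurableSpace.generateFrom {AA Q i}) p hN
    apply h1
    rw [← AA_prime Q hp]
    exact MeasurableSpace.measurableSet_generateFrom rfl
  have h01 := measure_zero_or_one_of_measurableSet_limsup_atTop hle hind htail
  have hE : MeasurableSet {ω | ∃ S : Finset ℕ, (Pairs (Q ω ∪ (S : Set ℕ))).Infinite} :=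
    meas_E Q 0 fun p hp _ => (one h hp).1
  have hge : μ {ω | (Pairs (Q ω)).Infinite} ≤
      μ {ω | ∃ S : Finset ℕ, (Pairs (Q ω ∪ (S : Set ℕ))).Infinite} := by
    apply measure_mono
    intro ω hω
    refine ⟨∅, ?_⟩
    rw [Finset.coe_empty, Set.union_empty]
    exact hω
  have h1 : μ {ω | ∃ S : Finset ℕ, (Pairs (Q ω ∪ (S : Set ℕ))).Infinite} = 1 := by
    rcases h01 with h2 | h2
    · rw [h2] at hge
      exact absurd (lt_of_lt_of_le hpos hge) (lt_irrefl _)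
    · exact h2
  exact (mem_ae_iff_prob_eq_one hE).2 h1

end Pool.Agent.K3h67.RS
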